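import Mathlib
import Pool.Agent.R579.Orn.Defs
import Pool.Agent.R579.Orn.Conv
import Pool.Agent.R579.Orn.K33c

namespace Pool.Agent.Results.MP_230865_co.NotPolytopal

open Pool.Agent.R579.Orn

/-- The ornamentation lattice of the complete directed graph on three vertices is not isomorphic to
the transitive closure of the graph of any convex polytope oriented by a linear functional that is
nonconstant on its edges. -/
theorem result : ¬ ∃ (n : ℕ) (S : Finset (EuclideanSpace ℝ (Fin n)))
    (c : EuclideanSpace ℝ (Fin n) →ₗ[ℝ] ℝ), RealizedBy K3 S c :=
  main noK33

end Pool.Agent.Results.MP_230865_co.NotPolytopal
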